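import Pool.Agent.H24.RCN.Targets

/-! Row TOJ of the board rct_modules: complex conjugation inverts the roots of unity. -/

set_option autoImplicit false

open NumberField Pool.Agent.H24.RCN

namespace Pool.Agent.H80.RCN

theorem pf_TOJ : T_TOJ := by
  intro F L _ _ _ _ _ κ σ J hE x hx
  obtain ⟨n, hn, hxn⟩ := hx
  obtain ⟨τ⟩ := (inferInstance : Nonempty (L →+* ℂ))
  apply τ.injective
  have h1 : ‖τ x‖ ^ n = 1 := by
    rw [← norm_pow, ← map_pow, hxn, map_one, norm_one]
  have h2 : ‖τ x‖ = 1 := (pow_eq_one_iff_of_nonneg (norm_nonneg _) hn.ne').1 h1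
  rw [hE.conj, map_inv₀]
  rw [Complex.inv_def, Complex.normSq_eq_norm_sq, h2]
  simp

end Pool.Agent.H80.RCN
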